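import Mathlib

/-!
Adjoining slices to a symmetric tensor: what a decomposition into `3p + 1` cubes of the adjoined
tensor says about the original tensor.
-/

namespace Pool.Agent.K1H2.CM

open Finset

variable {F : Type*} [Field F] {J ι : Type*} [Fintype ι] {p : ℕ}

/-- trilinear form of a family of scalars -/
def B (l : ι → F) (f g h : ι → F) : F := ∑ s, l s * (f s * g s * h s)

lemma B_comm12 (l f g h : ι → F) : B l f g h = B l g f h := by
  unfold B; exact Finset.sum_congr rfl fun s _ => by ring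

lemma B_comm23 (l f g h : ι → F) : B l f g h = B l f h g := by
  unfold B; exact Finset.sum_congr rfl fun s _ => by ring

/-- the reduced vector -/
def D (m : ι → Fin p → F) (x : ι → J → F) (c : Fin p → J → F) (j : J) : ι → F :=
  fun s => x s j - ∑ q, m s q * c q j

lemma B_D (l g h : ι → F) (m : ι → Fin p → F) (x : ι → J → F) (c : Fin p → J → F) (j : J) :
    B l (D m x c j) g h = B l (fun s => x s j) g h - ∑ q, c q j * B l (fun s => m s q) g h := by
  unfold B D
  simp only [Finset.mul_sum]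
  rw [Finset.sum_comm, ← Finset.sum_sub_distrib]
  refine Finset.sum_congr rfl fun s _ => ?_
  have : ∑ q, c q j * (l s * (m s q * g s * h s)) = l s * ((∑ q, m s q * c q j) * g s * h s) := by
    rw [Finset.sum_mul, Finset.sum_mul, Finset.mul_sum]
    exact Finset.sum_congr rfl fun q _ => by ring
  rw [this]
  ring

lemma B_D2 (l g h : ι → F) (m : ι → Fin p → F) (x : ι → J → F) (c : Fin p → J → F) (j : J) :
    B l g (D m x c j) h = B l g (fun s => x s j) h - ∑ q, c q j * B l g (fun s => m s q) h := by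
  rw [B_comm12, B_D, B_comm12]
  congr 1
  exact Finset.sum_congr rfl fun q _ => by rw [B_comm12]

lemma B_D3 (l g h : ι → F) (m : ι → Fin p → F) (x : ι → J → F) (c : Fin p → J → F) (j : J) :
    B l g h (D m x c j) = B l g h (fun s => x s j) - ∑ q, c q j * B l g h (fun s => m s q) := by
  rw [B_comm23, B_D2, B_comm23]
  congr 1
  exact Finset.sum_congr rfl fun q _ => by rw [B_comm23]

lemma B_sum (l g h : ι → F) (m : ι → Fin p → F) (ψ : Fin p → F) :
    B l (fun s => ∑ q, ψ q * m s q) g h = ∑ q, ψ q * B l (fun s => m s q) g h := by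
  unfold B
  simp only [Finset.mul_sum]
  rw [Finset.sum_comm]
  refine Finset.sum_congr rfl fun s _ => ?_
  rw [Finset.sum_mul, Finset.sum_mul, Finset.mul_sum]
  exact Finset.sum_congr rfl fun q _ => by ring

/-- hypotheses: a decomposition of the adjoined tensor -/
structure Dec (T0 : J → J → J → F) (n : Fin p → J → F) (l : ι → F) (x : ι → J → F)
    (m : ι → Fin p → F) : Prop where
  h0 : ∀ i j k, B l (fun s => x s i) (fun s => x s j) (fun s => x s k) = T0 i j k
  h1 : ∀ q j k, B l (fun s => m s q) (fun s => x s j) (fun s => x s k) = n q j * n q k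
  h2 : ∀ q q' k, B l (fun s => m s q) (fun s => m s q') (fun s => x s k) = 0
  h3 : ∀ q q' q'', B l (fun s => m s q) (fun s => m s q') (fun s => m s q'') = 0

variable {T0 : J → J → J → F} {n : Fin p → J → F} {l : ι → F} {x : ι → J → F}
  {m : ι → Fin p → F}

lemma Dec.mmD (h : Dec T0 n l x m) (q q' : Fin p) (c : Fin p → J → F) (k : J) :
    B l (fun s => m s q) (fun s => m s q') (D m x c k) = 0 := by
  rw [B_D3, h.h2]
  simp [h.h3]

lemma Dec.mxD (h : Dec T0 n l x m) (q : Fin p) (c : Fin p → J → F) (j k : J) :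
    B l (fun s => m s q) (fun s => x s j) (D m x c k) = n q j * n q k := by
  rw [B_D3, h.h1]
  have : ∀ r, B l (fun s => m s q) (fun s => x s j) (fun s => m s r) = 0 := by
    intro r
    rw [B_comm23, h.h2]
  simp [this]

lemma Dec.mDD (h : Dec T0 n l x m) (q : Fin p) (c c' : Fin p → J → F) (j k : J) :
    B l (fun s => m s q) (D m x c j) (D m x c' k) = n q j * n q k := by
  rw [B_D2, h.mxD]
  simp [h.mmD]

lemma Dec.psi (h : Dec T0 n l x m) (ψ : Fin p → F) (c c' : Fin p → J → F) (j k : J) :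
    B l (fun s => ∑ q, ψ q * m s q) (D m x c j) (D m x c' k) = ∑ q, ψ q * (n q j * n q k) := by
  rw [B_sum]
  exact Finset.sum_congr rfl fun q _ => by rw [h.mDD]

lemma Dec.DDD (h : Dec T0 n l x m) (c c' c'' : Fin p → J → F) (i j k : J) :
    B l (D m x c i) (D m x c' j) (D m x c'' k) = T0 i j k -
      ∑ q, (c q i * (n q j * n q k) + n q i * c' q j * n q k + n q i * n q j * c'' q k) := by
  rw [B_D, B_D2, B_D3, h.h0]
  have e1 : ∀ q, B l (fun s => x s i) (fun s => x s j) (fun s => m s q) = n q i * n q j := by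
    intro q
    rw [B_comm23, B_comm12, h.h1]
  have e2 : ∀ q, B l (fun s => x s i) (fun s => m s q) (D m x c'' k) = n q i * n q k := by
    intro q
    rw [B_comm12, h.mxD]
  simp only [e1, e2, h.mDD]
  simp only [Finset.sum_add_distrib]
  have r1 : ∑ q, n q i * c' q j * n q k = ∑ q, c' q j * (n q i * n q k) :=
    Finset.sum_congr rfl fun q _ => by ring
  have r2 : ∑ q, n q i * n q j * c'' q k = ∑ q, c'' q k * (n q i * n q j) :=
    Finset.sum_congr rfl fun q _ => by ring
  rw [r1, r2]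
  ring

/-- selection of a basis from a family separated by functionals -/
lemma select {ι : Type*} (A : Set ι) (m : ι → Fin p → F)
    (hA : ∀ ψ : Fin p → F, (∀ s ∈ A, ∑ q, ψ q * m s q = 0) → ψ = 0) :
    ∃ (σ : Fin p → ι) (N : Fin p → Fin p → F), Function.Injective σ ∧ (∀ q, σ q ∈ A) ∧
      (∀ q q', ∑ r, N q r * m (σ q') r = if q = q' then 1 else 0) ∧
      (∀ r r', ∑ q, m (σ q) r' * N q r = if r = r' then 1 else 0) := by
  classical
  have hspan : Submodule.span F (m '' A) = ⊤ := by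
    by_contra hne
    obtain ⟨f, hf0, hf⟩ := Submodule.exists_le_ker_of_lt_top _ (lt_top_iff_ne_top.2 hne)
    have hfy : ∀ y : Fin p → F, f y = ∑ q, f (fun j => if q = j then 1 else 0) * y q := by
      intro y
      rw [LinearMap.pi_apply_eq_sum_univ f y]
      exact Finset.sum_congr rfl fun q _ => by rw [smul_eq_mul, mul_comm]
    have := hA (fun q => f (fun j => if q = j then 1 else 0)) (fun s hs => by
      rw [← hfy]
      have : m s ∈ Submodule.span F (m '' A) := Submodule.subset_span ⟨s, hs, rfl⟩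
      exact hf this)
    apply hf0
    ext y
    have h1 := hfy (Pi.single y 1)
    simp only [LinearMap.comp_apply, LinearMap.single_apply, LinearMap.zero_apply]
    rw [h1]
    apply Finset.sum_eq_zero
    intro q _
    rw [congrFun this q]
    simp
  obtain ⟨f, hf1, -, hf3⟩ := Submodule.exists_fun_fin_finrank_span_eq F (m '' A)
  have hfr : Module.finrank F (Submodule.span F (m '' A)) = p := by
    rw [hspan, finrank_top]
    simp
  let f' : Fin p → Fin p → F := fun q => f (Fin.cast hfr.symm q)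
  have hf1' : ∀ q, f' q ∈ m '' A := fun q => hf1 _
  have hf3' : LinearIndependent F f' := hf3.comp _ (Fin.cast_injective _)
  choose σ hσA hσ using hf1'
  have hinj : Function.Injective σ := by
    intro a b hab
    apply hf3'.injective
    rw [← hσ a, ← hσ b, hab]
  let M : Matrix (Fin p) (Fin p) F := Matrix.of f'
  have hM : IsUnit M := Matrix.linearIndependent_rows_iff_isUnit.1 hf3'
  have hdet : IsUnit M.det := (Matrix.isUnit_iff_isUnit_det M).1 hM
  have e1 : M * M⁻¹ = 1 := Matrix.mul_nonsing_inv _ hdet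
  have e2 : M⁻¹ * M = 1 := Matrix.nonsing_inv_mul _ hdet
  refine ⟨σ, fun q r => M⁻¹ r q, hinj, hσA, ?_, ?_⟩
  · intro q q'
    have := congrFun (congrFun e1 q') q
    rw [Matrix.mul_apply, Matrix.one_apply] at this
    have e3 : ∀ r, M q' r = m (σ q') r := fun r => by rw [hσ]; rfl
    simp only [e3] at this
    rw [show (∑ r, M⁻¹ r q * m (σ q') r) = ∑ r, m (σ q') r * M⁻¹ r q from
      Finset.sum_congr rfl fun r _ => by ring, this]
    simp [eq_comm]
  · intro r r'
    have := congrFun (congrFun e2 r) r'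
    rw [Matrix.mul_apply, Matrix.one_apply] at this
    have e3 : ∀ q, M q r' = m (σ q) r' := fun q => by rw [hσ]; rfl
    simp only [e3] at this
    rw [show (∑ q, m (σ q) r' * M⁻¹ r q) = ∑ q, M⁻¹ r q * m (σ q) r' from
      Finset.sum_congr rfl fun r _ => by ring, this]

omit [Fintype ι] in
lemma D_mem (V : Submodule F (J → F)) (hV : ∀ s, x s ∈ V) {c : Fin p → J → F}
    (hc : ∀ q, c q ∈ V) (s : ι) : (fun j => D m x c j s) ∈ V := by
  have : (fun j => D m x c j s) = x s - ∑ q, m s q • c q := by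
    funext j
    simp [D, Finset.sum_apply]
  rw [this]
  exact V.sub_mem (hV s) (V.sum_mem fun q _ => V.smul_mem _ (hc q))

omit [Fintype ι] in
/-- the reduction which kills a chart -/
lemma chart (V : Submodule F (J → F)) (hV : ∀ s, x s ∈ V) (σ : Fin p → ι)
    (N : Fin p → Fin p → F)
    (h1 : ∀ q q', ∑ r, N q r * m (σ q') r = if q = q' then 1 else 0) :
    ∃ c : Fin p → J → F, (∀ q, c q ∈ V) ∧ ∀ q j, D m x c j (σ q) = 0 := by
  refine ⟨fun r => ∑ q, N q r • x (σ q), fun r => V.sum_mem fun q _ => V.smul_mem _ (hV _), ?_⟩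
  intro q' j
  unfold D
  simp only [Finset.sum_apply, Pi.smul_apply, smul_eq_mul, Finset.mul_sum]
  rw [Finset.sum_comm]
  have e : ∀ q, ∑ r, m (σ q') r * (N q r * x (σ q) j) = (if q = q' then 1 else 0) * x (σ q) j := by
    intro q
    rw [← h1 q q', Finset.sum_mul]
    exact Finset.sum_congr rfl fun r _ => by ring
  simp [e]

lemma pair (h : Dec T0 n l x m) (V : Submodule F (J → F)) (hV : ∀ s, x s ∈ V)
    (σ : Fin p → ι) (N : Fin p → Fin p → F) (hσ : Function.Injective σ)
    (h1 : ∀ q q', ∑ r, N q r * m (σ q') r = if q = q' then 1 else 0)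
    (h2 : ∀ r r', ∑ q, m (σ q) r' * N q r = if r = r' then 1 else 0)
    (s0 : ι) (hs0 : ∀ q, s0 ≠ σ q) (c c' : Fin p → J → F) (hc : ∀ q, c q ∈ V)
    (hc' : ∀ q, c' q ∈ V)
    (hz : ∀ s, s ≠ s0 → (∀ q, s ≠ σ q) → (∀ j, D m x c j s = 0) ∨ (∀ j, D m x c' j s = 0)) :
    (fun j => D m x c j s0) = (fun j => D m x c' j s0) ∨
      ∃ (ψ : Fin p → F) (d : F) (y z : J → F), ψ ≠ 0 ∧ d ≠ 0 ∧ y ∈ V ∧ z ∈ V ∧
        ∀ j k, ∑ q, ψ q * (n q j * n q k) =
          l s0 * d * (D m x c j s0 * D m x c' k s0) + y j * z k := by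
  classical
  by_cases hm : m s0 = 0
  · left
    funext j
    simp [D, hm]
  · right
    have hq : ∃ q0, ∑ r, N q0 r * m s0 r ≠ 0 := by
      by_contra hcon
      push Not at hcon
      apply hm
      funext r'
      have : ∑ r, (∑ q, m (σ q) r' * N q r) * m s0 r = m s0 r' := by
        simp [h2]
      rw [← this]
      simp only [Finset.sum_mul]
      rw [Finset.sum_comm]
      apply Finset.sum_eq_zero
      intro q _
      have : ∑ r, m (σ q) r' * N q r * m s0 r = m (σ q) r' * ∑ r, N q r * m s0 r := by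
        rw [Finset.mul_sum]
        exact Finset.sum_congr rfl fun r _ => by ring
      rw [this, hcon, mul_zero]
    obtain ⟨q0, hq0⟩ := hq
    refine ⟨N q0, ∑ r, N q0 r * m s0 r, l (σ q0) • (fun j => D m x c j (σ q0)),
      fun j => D m x c' j (σ q0), ?_, hq0, V.smul_mem _ (D_mem V hV hc _),
      D_mem V hV hc' _, ?_⟩
    · rintro hN
      apply hq0
      simp [hN]
    · intro j k
      rw [← h.psi (N q0) c c' j k]
      unfold B
      rw [Fintype.sum_eq_add s0 (σ q0) (hs0 q0)]
      · beta_reduce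
        rw [h1 q0 q0, if_pos rfl]
        simp only [Pi.smul_apply, smul_eq_mul]
        ring
      · rintro s ⟨hs1, hs2⟩
        by_cases hr : ∃ q, s = σ q
        · obtain ⟨q, rfl⟩ := hr
          have : q0 ≠ q := fun h => hs2 (by rw [h])
          beta_reduce
          rw [h1 q0 q, if_neg this]
          ring
        · push Not at hr
          rcases hz s hs1 hr with h' | h'
          · rw [h' j]; ring
          · rw [h' k]; ring

/-- the core of the lower bound -/
theorem core (hι : Fintype.card ι = 3 * p + 1) (h : Dec T0 n l x m)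
    (hn : ∀ ψ : Fin p → F, (∀ j k, ∑ q, ψ q * (n q j * n q k) = 0) → ψ = 0)
    (V : Submodule F (J → F)) (hV : ∀ s, x s ∈ V) :
    ∃ (c0 : F) (a b c : J → F) (u v w : Fin p → J → F), a ∈ V ∧ b ∈ V ∧ c ∈ V ∧
      (∀ i j k, T0 i j k = c0 * (a i * b j * c k) +
        ∑ q, (u q i * (n q j * n q k) + n q i * v q j * n q k + n q i * n q j * w q k)) ∧
      (a = b ∨ ∃ (ψ : Fin p → F) (d : F) (y z : J → F), ψ ≠ 0 ∧ d ≠ 0 ∧ y ∈ V ∧ z ∈ V ∧
        ∀ j k, ∑ q, ψ q * (n q j * n q k) = c0 * d * (a j * b k) + y j * z k) ∧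
      (a = c ∨ ∃ (ψ : Fin p → F) (d : F) (y z : J → F), ψ ≠ 0 ∧ d ≠ 0 ∧ y ∈ V ∧ z ∈ V ∧
        ∀ j k, ∑ q, ψ q * (n q j * n q k) = c0 * d * (a j * c k) + y j * z k) := by
  classical
  have hz0 : ∀ (c c' : Fin p → J → F) (ψ : Fin p → F),
      (∀ s, (∑ q, ψ q * m s q = 0) ∨ (∀ j, D m x c j s = 0) ∨ (∀ j, D m x c' j s = 0)) →
      ψ = 0 := by
    intro c c' ψ hs
    apply hn
    intro j k
    rw [← h.psi ψ c c' j k]
    unfold B
    apply Finset.sum_eq_zero
    intro s _
    rcases hs s with h' | h' | h'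
    · beta_reduce
      rw [h']; ring
    · rw [h' j]; ring
    · rw [h' k]; ring
  obtain ⟨σ1, N1, i1, -, a1, b1⟩ := select Set.univ m (fun ψ hψ =>
    hz0 0 0 ψ (fun s => Or.inl (hψ s (Set.mem_univ s))))
  obtain ⟨c1, c1V, c1z⟩ := chart V hV σ1 N1 a1
  obtain ⟨σ2, N2, i2, A2, a2, b2⟩ := select {s | ∀ q, s ≠ σ1 q} m (fun ψ hψ =>
    hz0 c1 0 ψ (fun s => by
      by_cases hs : ∀ q, s ≠ σ1 q
      · exact Or.inl (hψ s hs)
      · push Not at hs
        obtain ⟨q, rfl⟩ := hs
        exact Or.inr (Or.inl (c1z q))))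
  obtain ⟨c2, c2V, c2z⟩ := chart V hV σ2 N2 a2
  obtain ⟨σ3, N3, i3, A3, a3, b3⟩ := select {s | (∀ q, s ≠ σ1 q) ∧ (∀ q, s ≠ σ2 q)} m
    (fun ψ hψ => hz0 c1 c2 ψ (fun s => by
      by_cases hs : ∀ q, s ≠ σ1 q
      · by_cases hs2 : ∀ q, s ≠ σ2 q
        · exact Or.inl (hψ s ⟨hs, hs2⟩)
        · push Not at hs2
          obtain ⟨q, rfl⟩ := hs2
          exact Or.inr (Or.inr (c2z q))
      · push Not at hs
        obtain ⟨q, rfl⟩ := hs
        exact Or.inr (Or.inl (c1z q))))
  obtain ⟨c3, c3V, c3z⟩ := chart V hV σ3 N3 a3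
  -- the leftover index
  obtain ⟨s0, h01, h02, h03, hall⟩ : ∃ s0 : ι, (∀ q, s0 ≠ σ1 q) ∧ (∀ q, s0 ≠ σ2 q) ∧
      (∀ q, s0 ≠ σ3 q) ∧ ∀ s, s ≠ s0 → (∃ q, s = σ1 q) ∨ (∃ q, s = σ2 q) ∨ (∃ q, s = σ3 q) := by
    let R1 : Finset ι := Finset.univ.image σ1
    let R2 : Finset ι := Finset.univ.image σ2
    let R3 : Finset ι := Finset.univ.image σ3
    have k1 : R1.card = p := by
      rw [Finset.card_image_of_injective _ i1]; simp
    have k2 : R2.card = p := by
      rw [Finset.card_image_of_injective _ i2]; simp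
    have k3 : R3.card = p := by
      rw [Finset.card_image_of_injective _ i3]; simp
    have d12 : Disjoint R1 R2 := by
      rw [Finset.disjoint_left]
      intro s hs1 hs2
      simp only [R1, R2, Finset.mem_image, Finset.mem_univ, true_and] at hs1 hs2
      obtain ⟨q, rfl⟩ := hs1
      obtain ⟨q', hq'⟩ := hs2
      exact A2 q' q hq'
    have d3 : Disjoint (R1 ∪ R2) R3 := by
      rw [Finset.disjoint_left]
      intro s hs1 hs2
      simp only [R1, R2, R3, Finset.mem_union, Finset.mem_image, Finset.mem_univ,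
        true_and] at hs1 hs2
      obtain ⟨q', rfl⟩ := hs2
      rcases hs1 with ⟨q, hq⟩ | ⟨q, hq⟩
      · exact (A3 q').1 q hq.symm
      · exact (A3 q').2 q hq.symm
    have hcard : ((R1 ∪ R2) ∪ R3)ᶜ.card = 1 := by
      rw [Finset.card_compl, Finset.card_union_of_disjoint d3, Finset.card_union_of_disjoint d12,
        k1, k2, k3, hι]
      omega
    obtain ⟨s0, hs0⟩ := Finset.card_eq_one.1 hcard
    have hmem : ∀ s, s ∈ ((R1 ∪ R2) ∪ R3)ᶜ ↔ s = s0 := by
      intro s; rw [hs0, Finset.mem_singleton]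
    have hs0' := (hmem s0).2 rfl
    simp only [R1, R2, R3, Finset.mem_compl, Finset.mem_union, Finset.mem_image,
      Finset.mem_univ, true_and, not_or, not_exists] at hs0'
    refine ⟨s0, fun q h => hs0'.1.1 q h.symm, fun q h => hs0'.1.2 q h.symm,
      fun q h => hs0'.2 q h.symm, ?_⟩
    intro s hs
    have h' := mt (hmem s).1 hs
    simp only [R1, R2, R3, Finset.mem_compl, Finset.mem_union, Finset.mem_image,
      Finset.mem_univ, true_and, not_not] at h'
    rcases h' with (⟨q, hq⟩ | ⟨q, hq⟩) | ⟨q, hq⟩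
    · exact Or.inl ⟨q, hq.symm⟩
    · exact Or.inr (Or.inl ⟨q, hq.symm⟩)
    · exact Or.inr (Or.inr ⟨q, hq.symm⟩)
  refine ⟨l s0, fun j => D m x c1 j s0, fun j => D m x c2 j s0, fun j => D m x c3 j s0,
    c1, c2, c3, D_mem V hV c1V _, D_mem V hV c2V _, D_mem V hV c3V _, ?_, ?_, ?_⟩
  · intro i j k
    have h1 := h.DDD c1 c2 c3 i j k
    have h2 : B l (D m x c1 i) (D m x c2 j) (D m x c3 k) =
        l s0 * (D m x c1 i s0 * D m x c2 j s0 * D m x c3 k s0) := by
      unfold B
      apply Finset.sum_eq_single s0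
      · intro s _ hs
        rcases hall s hs with ⟨q, rfl⟩ | ⟨q, rfl⟩ | ⟨q, rfl⟩
        · rw [c1z]; ring
        · rw [c2z]; ring
        · rw [c3z]; ring
      · intro hs; exact absurd (Finset.mem_univ _) hs
    rw [h2] at h1
    rw [h1]
    ring
  · refine pair h V hV σ3 N3 i3 a3 b3 s0 h03 c1 c2 c1V c2V ?_
    intro s hs hs3
    rcases hall s hs with ⟨q, rfl⟩ | ⟨q, rfl⟩ | ⟨q, rfl⟩
    · exact Or.inl (c1z q)
    · exact Or.inr (c2z q)
    · exact absurd rfl (hs3 q)
  · refine pair h V hV σ2 N2 i2 a2 b2 s0 h02 c1 c3 c1V c3V ?_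
    intro s hs hs3
    rcases hall s hs with ⟨q, rfl⟩ | ⟨q, rfl⟩ | ⟨q, rfl⟩
    · exact Or.inl (c1z q)
    · exact absurd rfl (hs3 q)
    · exact Or.inr (c3z q)

end Pool.Agent.K1H2.CM
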