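import Pool.Agent.K1H2.CM.Up

/-!
The adjoined tensor: rank at most `3 p + 1`, and no decomposition into `3 p + 1` cubes.
-/

namespace Pool.Agent.K1H2.CM

open Finset

variable {F : Type*} [Field F]

/-- extension by zero to the enlarged index set -/
def ex {p : ℕ} (x : Jt → F) : Jt ⊕ Fin p → F := Sum.elim x 0

/-- the new coordinate vectors -/
def yy (F : Type*) [Field F] {p : ℕ} (q : Fin p) : Jt ⊕ Fin p → F := Sum.elim 0 (Pi.single q 1)

/-- the adjoined tensor -/
def TT (t : Fin 3 → F) {p : ℕ} (n : Fin p → Jt → F) (i j k : Jt ⊕ Fin p) : F :=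
  ∑ r, t r * (ex (Fv F r) i * ex (Fv F r) j * ex (Fv F r) k) +
    ∑ q, (yy F q i * (ex (n q) j * ex (n q) k) + ex (n q) i * yy F q j * ex (n q) k +
      ex (n q) i * ex (n q) j * yy F q k)

lemma TT_symm (t : Fin 3 → F) {p : ℕ} (n : Fin p → Jt → F) (i j k : Jt ⊕ Fin p) :
    TT t n i j k = TT t n j i k ∧ TT t n i j k = TT t n i k j := by
  constructor
  · unfold TT
    congr 1
    · exact Finset.sum_congr rfl fun r _ => by ring
    · exact Finset.sum_congr rfl fun r _ => by ring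
  · unfold TT
    congr 1
    · exact Finset.sum_congr rfl fun r _ => by ring
    · exact Finset.sum_congr rfl fun r _ => by ring

lemma TT_jjj (t : Fin 3 → F) {p : ℕ} (n : Fin p → Jt → F) (i j k : Jt) :
    TT t n (Sum.inl i) (Sum.inl j) (Sum.inl k) = T0 t i j k := by
  simp [TT, ex, yy, T0]

lemma TT_pjj (t : Fin 3 → F) {p : ℕ} (n : Fin p → Jt → F) (q : Fin p) (j k : Jt) :
    TT t n (Sum.inr q) (Sum.inl j) (Sum.inl k) = n q j * n q k := by
  simp [TT, ex, yy, Pi.single_apply]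

lemma TT_ppj (t : Fin 3 → F) {p : ℕ} (n : Fin p → Jt → F) (q q' : Fin p) (k : Jt) :
    TT t n (Sum.inr q) (Sum.inr q') (Sum.inl k) = 0 := by
  simp [TT, ex, yy]

lemma TT_ppp (t : Fin 3 → F) {p : ℕ} (n : Fin p → Jt → F) (q q' q'' : Fin p) :
    TT t n (Sum.inr q) (Sum.inr q') (Sum.inr q'') = 0 := by
  simp [TT, ex, yy]

/-- one slot of a decomposition may be projected -/
lemma proj1 {I ι : Type*} [DecidableEq I] [Fintype ι] (f : I → F) (z a b : I)
    (hf : f z = f a + f b)
    (v : ι → I → F) (g : ι → F) (h : ∀ i, f i = ∑ s, v s i * g s) (i : I) :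
    f i = ∑ s, Function.update (v s) z (v s a + v s b) i * g s := by
  by_cases hi : i = z
  · subst hi
    rw [hf, h a, h b, ← Finset.sum_add_distrib]
    refine Finset.sum_congr rfl fun s _ => ?_
    rw [Function.update_self]
    ring
  · rw [h i]
    refine Finset.sum_congr rfl fun s _ => ?_
    rw [Function.update_of_ne hi]

lemma proj {I ι : Type*} [DecidableEq I] [Fintype ι] (T : I → I → I → F)
    (hT : ∀ i j k, T i j k = T j i k ∧ T i j k = T i k j) (z a b : I)
    (hz : ∀ j k, T z j k = T a j k + T b j k) (l : ι → F) (v : ι → I → F)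
    (h : ∀ i j k, T i j k = ∑ s, l s * (v s i * v s j * v s k)) (i j k : I) :
    T i j k = ∑ s, l s * (Function.update (v s) z (v s a + v s b) i *
      Function.update (v s) z (v s a + v s b) j * Function.update (v s) z (v s a + v s b) k) := by
  obtain ⟨v', hv'⟩ : ∃ v' : ι → I → F, v' = fun s => Function.update (v s) z (v s a + v s b) :=
    ⟨_, rfl⟩
  have hv'' : ∀ s, Function.update (v s) z (v s a + v s b) = v' s := fun s => by rw [hv']
  simp only [hv'']
  have h1 : ∀ i j k, T i j k = ∑ s, v' s i * (l s * v s j * v s k) := by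
    intro i j k
    rw [hv']
    refine proj1 (fun i => T i j k) z a b (hz j k) v (fun s => l s * v s j * v s k) ?_ i
    intro i
    rw [h]
    exact Finset.sum_congr rfl fun s _ => by ring
  have h2 : ∀ i j k, T i j k = ∑ s, v' s j * (l s * v' s i * v s k) := by
    intro i j k
    have := proj1 (fun j => T i j k) z a b (by
      rw [(hT i z k).1, (hT i a k).1, (hT i b k).1, hz]) v (fun s => l s * v' s i * v s k) (by
      intro j
      rw [h1]
      exact Finset.sum_congr rfl fun s _ => by ring) j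
    beta_reduce at this
    rw [this, hv']
  have h3 : ∀ i j k, T i j k = ∑ s, v' s k * (l s * v' s i * v' s j) := by
    intro i j k
    have := proj1 (fun k => T i j k) z a b (by
      rw [(hT i j z).2, (hT i z j).1, hz, (hT a i j).1, (hT i a j).2, (hT b i j).1,
        (hT i b j).2]) v (fun s => l s * v' s i * v' s j) (by
      intro k
      rw [h2]
      exact Finset.sum_congr rfl fun s _ => by ring) k
    beta_reduce at this
    rw [this, hv']
  rw [h3]
  exact Finset.sum_congr rfl fun s _ => by ring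

lemma TT_slice (t : Fin 3 → F) {p : ℕ} (n : Fin p → Jt → F) (hK : ∀ q, Kn (n q))
    (j k : Jt ⊕ Fin p) :
    TT t n (Sum.inl (2, 0)) j k = TT t n (Sum.inl (0, 0)) j k + TT t n (Sum.inl (1, 0)) j k := by
  unfold TT
  have e1 : ∀ r, ex (p := p) (Fv F r) (Sum.inl (2, 0)) =
      ex (p := p) (Fv F r) (Sum.inl (0, 0)) + ex (p := p) (Fv F r) (Sum.inl (1, 0)) := by
    intro r; exact Fv_mem r
  have e2 : ∀ q, ex (p := p) (n q) (Sum.inl (2, 0)) =
      ex (p := p) (n q) (Sum.inl (0, 0)) + ex (p := p) (n q) (Sum.inl (1, 0)) := by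
    intro q; exact (hK q).1
  have e3 : ∀ (q : Fin p) (i : Jt), yy F q (Sum.inl i) = 0 := by
    intro q i; rfl
  simp only [e1, e2, e3]
  rw [add_add_add_comm, ← Finset.sum_add_distrib, ← Finset.sum_add_distrib]
  congr 1
  · exact Finset.sum_congr rfl fun r _ => by ring
  · exact Finset.sum_congr rfl fun r _ => by ring

/-- there is no decomposition into at most `3 p + 1` cubes -/
theorem no_short (h2 : (2 : F) ≠ 0) {p : ℕ} (n : Fin p → Jt → F) (hK : ∀ q, Kn (n q))
    (hn : ∀ ψ : Fin p → F, (∀ j k, ∑ q, ψ q * (n q j * n q k) = 0) → ψ = 0)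
    (t : Fin 3 → F) (ht : ∀ r, t r ≠ 0)
    (hpar : ∀ y : F, ¬ (y ^ 3 * t 0 = t 1 ∧ (1 + y) ^ 3 * t 0 = t 2))
    (r : ℕ) (l : Fin r → F) (v : Fin r → Jt ⊕ Fin p → F)
    (h : ∀ i j k, TT t n i j k = ∑ s, l s * (v s i * v s j * v s k)) : 3 * p + 2 ≤ r := by
  by_contra hcon
  obtain ⟨e, he⟩ : ∃ e, 3 * p + 1 = r + e := ⟨3 * p + 1 - r, by omega⟩
  let l1 : Fin (r + e) → F := Fin.append l 0
  let v1 : Fin (r + e) → Jt ⊕ Fin p → F := Fin.append v 0
  have h1 : ∀ i j k, TT t n i j k = ∑ s, l1 s * (v1 s i * v1 s j * v1 s k) := by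
    intro i j k
    rw [Fin.sum_univ_add, h]
    simp [l1, v1]
  have h3 := proj (TT t n) (TT_symm t n) (Sum.inl (2, 0)) (Sum.inl (0, 0)) (Sum.inl (1, 0))
    (TT_slice t n hK) l1 v1 h1
  let v2 : Fin (r + e) → Jt ⊕ Fin p → F := fun s =>
    Function.update (v1 s) (Sum.inl (2, 0)) (v1 s (Sum.inl (0, 0)) + v1 s (Sum.inl (1, 0)))
  have h4 : ∀ i j k, TT t n i j k = ∑ s, l1 s * (v2 s i * v2 s j * v2 s k) := h3
  have hDec : Dec (T0 t) n l1 (fun s j => v2 s (Sum.inl j)) (fun s q => v2 s (Sum.inr q)) := by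
    refine ⟨fun i j k => ?_, fun q j k => ?_, fun q q' k => ?_, fun q q' q'' => ?_⟩
    · rw [← TT_jjj t n i j k, h4]; rfl
    · rw [← TT_pjj t n q j k, h4]; rfl
    · rw [← TT_ppj t n q q' k, h4]; rfl
    · rw [← TT_ppp t n q q' q'', h4]; rfl
  obtain ⟨c0, a, b, c, u, v', w, haV, hbV, hcV, hT, hab, hac⟩ :=
    core (by rw [Fintype.card_fin, he]) hDec hn (VV F) (by
      intro s
      change v2 s (Sum.inl (2, 0)) = v2 s (Sum.inl (0, 0)) + v2 s (Sum.inl (1, 0))
      simp [v2])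
  exact no_core h2 n hK hn t ht hpar c0 a b c u v' w haV hbV hcV hT hab hac

/-- the decomposition into `3 p + 1` simple tensors -/
theorem short (h2 : (2 : F) ≠ 0) {p : ℕ} (n : Fin p → Jt → F)
    (hsp : ∀ m, Kn m → ∃ c : Fin p → F, ∀ j k, m j * m k = ∑ q, c q * (n q j * n q k))
    (α1 α2 β1 β2 γ1 γ2 : F) :
    ∃ a b c : Fin p ⊕ Fin p ⊕ Fin p ⊕ Fin 1 → Jt ⊕ Fin p → F, ∀ i j k,
      TT ![α1 * β1 * γ1, α2 * β2 * γ2, (α1 + α2) * (β1 + β2) * (γ1 + γ2)] n i j k =
        ∑ s, a s i * b s j * c s k := by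
  obtain ⟨u, v, w, h⟩ := upper h2 n hsp α1 α2 β1 β2 γ1 γ2
  refine ⟨Sum.elim (fun q => ex (u q) + yy F q) (Sum.elim (fun q => ex (n q))
      (Sum.elim (fun q => ex (n q)) (fun _ => ex (plane F α1 α2)))),
    Sum.elim (fun q => ex (n q)) (Sum.elim (fun q => ex (v q) + yy F q)
      (Sum.elim (fun q => ex (n q)) (fun _ => ex (plane F β1 β2)))),
    Sum.elim (fun q => ex (n q)) (Sum.elim (fun q => ex (n q))
      (Sum.elim (fun q => ex (w q) + yy F q) (fun _ => ex (plane F γ1 γ2)))), ?_⟩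
  intro i j k
  simp only [Fintype.sum_sum_type, Sum.elim_inl, Sum.elim_inr, Pi.add_apply, Finset.univ_unique,
    Finset.sum_singleton]
  have key : ∑ r, ![α1 * β1 * γ1, α2 * β2 * γ2, (α1 + α2) * (β1 + β2) * (γ1 + γ2)] r *
        (ex (p := p) (Fv F r) i * ex (Fv F r) j * ex (Fv F r) k) =
      ex (plane F α1 α2) i * ex (plane F β1 β2) j * ex (plane F γ1 γ2) k +
        ∑ q, (ex (u q) i * (ex (n q) j * ex (n q) k) + ex (n q) i * ex (v q) j * ex (n q) k +
          ex (n q) i * ex (n q) j * ex (w q) k) := by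
    rcases i with i | i
    · rcases j with j | j
      · rcases k with k | k
        · exact h i j k
        · simp [ex]
      · simp [ex]
    · simp [ex]
  unfold TT
  rw [key]
  simp only [Finset.sum_add_distrib, add_mul, mul_add]
  have r1 : ∀ (f g h' : Fin p → F), ∑ q, f q * (g q * h' q) = ∑ q, f q * g q * h' q := fun f g h' =>
    Finset.sum_congr rfl fun q _ => by ring
  rw [r1, r1]
  ring

end Pool.Agent.K1H2.CM
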