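import Mathlib

/-!
Identities in the quotient of the third tensor power by the gadget relations, in the dual form:
`t` runs through the trilinear forms which vanish on the relations.
-/

namespace Pool.Agent.K1H2.CM

variable {F : Type*} [Field F] {X : Type*} [AddCommGroup X] [Module F X]

/-- trilinear forms -/
structure Tri (t : X → X → X → F) : Prop where
  add1 : ∀ x x' y z, t (x + x') y z = t x y z + t x' y z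
  add2 : ∀ x y y' z, t x (y + y') z = t x y z + t x y' z
  add3 : ∀ x y z z', t x y (z + z') = t x y z + t x y z'
  smul1 : ∀ (c : F) x y z, t (c • x) y z = c * t x y z
  smul2 : ∀ (c : F) x y z, t x (c • y) z = c * t x y z
  smul3 : ∀ (c : F) x y z, t x y (c • z) = c * t x y z

/-- `t` is alternating in `u, v` in every pair of slots -/
def PP (t : X → X → X → F) (u v : X) : Prop :=
  ∀ x, t x u v + t x v u = 0 ∧ t u x v + t v x u = 0 ∧ t u v x + t v u x = 0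

/-- `t` vanishes on `u, u` in every pair of slots -/
def SS (t : X → X → X → F) (u : X) : Prop :=
  ∀ x, t x u u = 0 ∧ t u x u = 0 ∧ t u u x = 0

/-- the relations of the gadget -/
structure Rel (t : X → X → X → F) (g1 g2 E1 E2 E3 : X) : Prop where
  ht : Tri t
  s1 : SS t g1
  s2 : SS t g2
  p12 : PP t g1 g2
  q1 : PP t g2 E1
  q2 : PP t g1 E2
  q3 : ∀ x, (t x g1 E3 + t x E3 g1) - (t x g2 E3 + t x E3 g2) = 0 ∧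
    (t g1 x E3 + t E3 x g1) - (t g2 x E3 + t E3 x g2) = 0 ∧
    (t g1 E3 x + t E3 g1 x) - (t g2 E3 x + t E3 g2 x) = 0
  r12 : PP t E1 E2
  r13 : PP t E1 E3
  r23 : PP t E2 E3

lemma Rel.id000 {t : X → X → X → F} {g1 g2 E1 E2 E3 : X} (h2 : (2 : F) ≠ 0)
    (h : Rel t g1 g2 E1 E2 E3) :
    t (g1 + E1 + E3) (g1 + E1 + E3) (g1 + E1 + E3) =
      t (g1 + E1) (g1 + E1) (g1 + E1) + t (g1 + E3) (g1 + E3) (g1 + E3) := by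
  obtain ⟨ht, s1, s2, p12, q1, q2, q3, r12, r13, r23⟩ := h
  apply mul_left_cancel₀ h2
  simp only [ht.add1, ht.add2, ht.add3]
  linear_combination -2 * (s1 g1).2.1 + 2 * (r13 g1).1 + 2 * (r13 g1).2.1 + 2 * (r13 g1).2.2
    + (r13 E1).1 + (r13 E1).2.1 + (r13 E1).2.2 + (r13 E3).1 + (r13 E3).2.1 + (r13 E3).2.2

lemma Rel.id001 {t : X → X → X → F} {g1 g2 E1 E2 E3 : X} (h2 : (2 : F) ≠ 0)
    (h : Rel t g1 g2 E1 E2 E3) :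
    t (g1 + E1 + E3) (g1 + E1 + E3) (g2 + E2 + E3) =
      t (g1 + E3) (g1 + E3) (g1 + E3) := by
  obtain ⟨ht, s1, s2, p12, q1, q2, q3, r12, r13, r23⟩ := h
  apply mul_left_cancel₀ h2
  simp only [ht.add1, ht.add2, ht.add3]
  linear_combination -2 * (s1 g1).1 + 2 * (s1 g2).2.2 + 2 * (s1 E2).2.2 + 4 * (s1 E3).2.2
    + 2 * (p12 E1).1 + 2 * (p12 E1).2.1 - 2 * (p12 E3).2.2 - 2 * (q1 g1).2.2 + (q1 E1).1
    + (q1 E1).2.1 - (q1 E1).2.2 + 2 * (q1 E3).2.2 + 2 * (q2 E1).1 + 2 * (q2 E1).2.1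
    + 2 * (q2 E3).1 + 2 * (q2 E3).2.1 - 2 * (q3 g1).1 - 2 * (q3 g1).2.1 + 2 * (q3 E1).1
    + 2 * (q3 E1).2.1 - (q3 E3).1 - (q3 E3).2.1 + (q3 E3).2.2 - 2 * (r12 g1).2.2 + (r12 E1).1
    + (r12 E1).2.1 - (r12 E1).2.2 - 2 * (r13 g1).2.2 + 4 * (r13 g2).2.2 + (r13 E1).1
    + (r13 E1).2.1 - (r13 E1).2.2 + 2 * (r13 E2).2.2 + 2 * (r13 E3).2.2 - 2 * (r23 g1).2.2
    + (r23 E3).1 + (r23 E3).2.1 - (r23 E3).2.2

lemma Rel.id010 {t : X → X → X → F} {g1 g2 E1 E2 E3 : X} (h2 : (2 : F) ≠ 0)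
    (h : Rel t g1 g2 E1 E2 E3) :
    t (g1 + E1 + E3) (g2 + E2 + E3) (g1 + E1 + E3) =
      t (g1 + E3) (g1 + E3) (g1 + E3) := by
  obtain ⟨ht, s1, s2, p12, q1, q2, q3, r12, r13, r23⟩ := h
  apply mul_left_cancel₀ h2
  simp only [ht.add1, ht.add2, ht.add3]
  linear_combination -2 * (s1 g1).2.2 + 2 * (s1 g2).2.1 + 2 * (s1 E2).2.1 + 4 * (s1 E3).2.1
    - 2 * (p12 E1).2.1 - 2 * (p12 E3).2.1 + 2 * (q1 g1).1 + 2 * (q1 g1).2.2 + (q1 E1).1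
    - (q1 E1).2.1 + (q1 E1).2.2 + 2 * (q1 E3).2.1 - 2 * (q2 E1).2.1 + 2 * (q2 E3).1
    + 2 * (q2 E3).2.2 - 2 * (q3 g1).1 - 2 * (q3 g1).2.2 + 2 * (q3 E1).1 + 2 * (q3 E1).2.2
    - (q3 E3).1 + (q3 E3).2.1 - (q3 E3).2.2 + 2 * (r12 g1).1 + 2 * (r12 g1).2.2 + (r12 E1).1
    - (r12 E1).2.1 + (r12 E1).2.2 - 2 * (r13 g1).2.1 + 4 * (r13 g2).2.1 + (r13 E1).1
    - (r13 E1).2.1 + (r13 E1).2.2 + 2 * (r13 E2).2.1 + 2 * (r13 E3).2.1 - 2 * (r23 g1).2.1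
    + (r23 E3).1 - (r23 E3).2.1 + (r23 E3).2.2

lemma Rel.id011 {t : X → X → X → F} {g1 g2 E1 E2 E3 : X} (h2 : (2 : F) ≠ 0)
    (h : Rel t g1 g2 E1 E2 E3) :
    t (g1 + E1 + E3) (g2 + E2 + E3) (g2 + E2 + E3) =
      t (g1 + E3) (g1 + E3) (g1 + E3) := by
  obtain ⟨ht, s1, s2, p12, q1, q2, q3, r12, r13, r23⟩ := h
  apply mul_left_cancel₀ h2
  simp only [ht.add1, ht.add2, ht.add3]
  linear_combination -2 * (s1 g1).1 - 2 * (s1 E3).1 + 2 * (s2 g1).1 - 2 * (s2 E1).2.2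
    + 2 * (s2 E3).1 - 2 * (p12 E2).1 + 2 * (q1 g2).2.1 - 2 * (q1 E2).1 - 2 * (q1 E3).1
    + 2 * (q2 g2).2.1 + 2 * (q2 g2).2.2 - (q2 E2).1 + (q2 E2).2.1 + (q2 E2).2.2 + 2 * (q2 E3).1
    - 2 * (q3 g1).1 - 2 * (q3 E2).2.1 - 2 * (q3 E2).2.2 - 2 * (q3 E3).1 + 2 * (r12 g2).2.1
    + 2 * (r12 g2).2.2 - (r12 E2).1 + (r12 E2).2.1 + (r12 E2).2.2 + 2 * (r13 g2).2.1
    + 2 * (r13 g2).2.2 - (r13 E3).1 + (r13 E3).2.1 + (r13 E3).2.2 + 4 * (r23 g1).1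
    - 2 * (r23 g2).1 + 2 * (r23 E1).1 - (r23 E2).1 + (r23 E2).2.1 + (r23 E2).2.2
    + 2 * (r23 E3).1

lemma Rel.id100 {t : X → X → X → F} {g1 g2 E1 E2 E3 : X} (h2 : (2 : F) ≠ 0)
    (h : Rel t g1 g2 E1 E2 E3) :
    t (g2 + E2 + E3) (g1 + E1 + E3) (g1 + E1 + E3) =
      t (g1 + E3) (g1 + E3) (g1 + E3) := by
  obtain ⟨ht, s1, s2, p12, q1, q2, q3, r12, r13, r23⟩ := h
  apply mul_left_cancel₀ h2
  simp only [ht.add1, ht.add2, ht.add3]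
  linear_combination -2 * (s1 g1).2.2 + 2 * (s1 g2).1 + 2 * (s1 E2).1 + 4 * (s1 E3).1
    - 2 * (p12 E1).1 - 2 * (p12 E3).1 + 2 * (q1 g1).2.1 + 2 * (q1 g1).2.2 - (q1 E1).1
    + (q1 E1).2.1 + (q1 E1).2.2 + 2 * (q1 E3).1 + 2 * (q2 E1).2.1 + 2 * (q2 E1).2.2
    + 2 * (q2 E3).2.1 + 2 * (q2 E3).2.2 - 2 * (q3 g1).2.1 - 2 * (q3 g1).2.2 + 2 * (q3 E1).2.1
    + 2 * (q3 E1).2.2 + (q3 E3).1 - (q3 E3).2.1 - (q3 E3).2.2 - 2 * (r12 g1).1 - (r12 E1).1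
    + (r12 E1).2.1 + (r12 E1).2.2 - 2 * (r13 g1).1 + 4 * (r13 g2).1 - (r13 E1).1 + (r13 E1).2.1
    + (r13 E1).2.2 + 2 * (r13 E2).1 + 2 * (r13 E3).1 - 2 * (r23 g1).1 - (r23 E3).1
    + (r23 E3).2.1 + (r23 E3).2.2

lemma Rel.id101 {t : X → X → X → F} {g1 g2 E1 E2 E3 : X} (h2 : (2 : F) ≠ 0)
    (h : Rel t g1 g2 E1 E2 E3) :
    t (g2 + E2 + E3) (g1 + E1 + E3) (g2 + E2 + E3) =
      t (g1 + E3) (g1 + E3) (g1 + E3) := by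
  obtain ⟨ht, s1, s2, p12, q1, q2, q3, r12, r13, r23⟩ := h
  apply mul_left_cancel₀ h2
  simp only [ht.add1, ht.add2, ht.add3]
  linear_combination -2 * (s1 g1).2.2 - 2 * (s1 E3).2.1 + 2 * (s2 g1).2.1 + 2 * (s2 E1).2.1
    + 2 * (s2 E3).2.1 - 2 * (p12 E2).2.1 + 2 * (q1 E2).1 + 2 * (q1 E2).2.2 - 2 * (q1 E3).2.1
    + 2 * (q2 g2).1 + 2 * (q2 g2).2.2 + (q2 E2).1 - (q2 E2).2.1 + (q2 E2).2.2 + 2 * (q2 E3).2.1
    - 2 * (q3 g1).2.1 - 2 * (q3 E2).1 - 2 * (q3 E2).2.2 - 2 * (q3 E3).2.1 - 2 * (r12 g2).2.1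
    + (r12 E2).1 - (r12 E2).2.1 + (r12 E2).2.2 + 2 * (r13 g2).1 + 2 * (r13 g2).2.2 + (r13 E3).1
    - (r13 E3).2.1 + (r13 E3).2.2 + 4 * (r23 g1).2.1 - 2 * (r23 g2).2.1 + 2 * (r23 E1).2.1
    + (r23 E2).1 - (r23 E2).2.1 + (r23 E2).2.2 + 2 * (r23 E3).2.1

lemma Rel.id110 {t : X → X → X → F} {g1 g2 E1 E2 E3 : X} (h2 : (2 : F) ≠ 0)
    (h : Rel t g1 g2 E1 E2 E3) :
    t (g2 + E2 + E3) (g2 + E2 + E3) (g1 + E1 + E3) =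
      t (g1 + E3) (g1 + E3) (g1 + E3) := by
  obtain ⟨ht, s1, s2, p12, q1, q2, q3, r12, r13, r23⟩ := h
  apply mul_left_cancel₀ h2
  simp only [ht.add1, ht.add2, ht.add3]
  linear_combination -2 * (s1 g1).1 - 2 * (s1 E3).2.2 + 2 * (s2 g1).2.2 + 2 * (s2 E1).2.2
    + 2 * (s2 E3).2.2 - 2 * (p12 E2).2.2 + 2 * (q1 E2).1 + 2 * (q1 E2).2.1 + 2 * (q1 E3).1
    + 2 * (q1 E3).2.1 + 2 * (q2 g2).1 + 2 * (q2 g2).2.1 + (q2 E2).1 + (q2 E2).2.1 - (q2 E2).2.2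
    + 2 * (q2 E3).2.2 - 2 * (q3 g1).2.2 - 2 * (q3 E2).1 - 2 * (q3 E2).2.1 - 2 * (q3 E3).2.2
    - 2 * (r12 g2).2.2 + (r12 E2).1 + (r12 E2).2.1 - (r12 E2).2.2 - 2 * (r13 g2).2.2
    + (r13 E3).1 + (r13 E3).2.1 - (r13 E3).2.2 + 4 * (r23 g1).2.2 - 2 * (r23 g2).2.2
    + 2 * (r23 E1).2.2 + (r23 E2).1 + (r23 E2).2.1 - (r23 E2).2.2 + 2 * (r23 E3).2.2

lemma Rel.id111 {t : X → X → X → F} {g1 g2 E1 E2 E3 : X} (h2 : (2 : F) ≠ 0)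
    (h : Rel t g1 g2 E1 E2 E3) :
    t (g2 + E2 + E3) (g2 + E2 + E3) (g2 + E2 + E3) =
      t (g2 + E2) (g2 + E2) (g2 + E2) + t (g1 + E3) (g1 + E3) (g1 + E3) := by
  obtain ⟨ht, s1, s2, p12, q1, q2, q3, r12, r13, r23⟩ := h
  apply mul_left_cancel₀ h2
  simp only [ht.add1, ht.add2, ht.add3]
  linear_combination -2 * (s1 g1).1 - 2 * (s1 E3).2.2 - 2 * (s2 E3).2.2 + 2 * (p12 E3).2.2
    - 2 * (q3 g1).2.2 - 2 * (q3 g2).1 - 2 * (q3 g2).2.1 - (q3 E3).1 - (q3 E3).2.1 - (q3 E3).2.2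
    + 2 * (r23 g2).1 + 2 * (r23 g2).2.1 + 2 * (r23 g2).2.2 + (r23 E2).1 + (r23 E2).2.1
    + (r23 E2).2.2 + (r23 E3).1 + (r23 E3).2.1 + (r23 E3).2.2

/-- the rank one tensor of the pinned plane -/
theorem Rel.main {t : X → X → X → F} {g1 g2 E1 E2 E3 : X} (h2 : (2 : F) ≠ 0)
    (h : Rel t g1 g2 E1 E2 E3) (α1 α2 β1 β2 γ1 γ2 : F) :
    t (α1 • (g1 + E1 + E3) + α2 • (g2 + E2 + E3)) (β1 • (g1 + E1 + E3) + β2 • (g2 + E2 + E3))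
      (γ1 • (g1 + E1 + E3) + γ2 • (g2 + E2 + E3)) =
    α1 * β1 * γ1 * t (g1 + E1) (g1 + E1) (g1 + E1) +
      α2 * β2 * γ2 * t (g2 + E2) (g2 + E2) (g2 + E2) +
      (α1 + α2) * (β1 + β2) * (γ1 + γ2) * t (g1 + E3) (g1 + E3) (g1 + E3) := by
  have i000 := h.id000 h2
  have i001 := h.id001 h2
  have i010 := h.id010 h2
  have i011 := h.id011 h2
  have i100 := h.id100 h2
  have i101 := h.id101 h2
  have i110 := h.id110 h2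
  have i111 := h.id111 h2
  have ht := h.ht
  generalize hA : g1 + E1 + E3 = A at *
  generalize hB : g2 + E2 + E3 = B at *
  rw [ht.add1, ht.add2, ht.add3, ht.add3, ht.add2, ht.add3, ht.add3]
  simp only [ht.smul1, ht.smul2, ht.smul3]
  rw [i000, i001, i010, i011, i100, i101, i110, i111]
  ring

end Pool.Agent.K1H2.CM
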