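import Pool.Agent.K1H2.CM.Core

/-!
The gadget with three groups of four pinned functionals: the lower bound.
-/

namespace Pool.Agent.K1H2.CM

open Finset

variable {F : Type*} [Field F]

/-- the index set of the gadget: three groups of four pinned coordinates -/
abbrev Jt : Type := Fin 3 × Fin 4

/-- the subspace in which the three first coordinates satisfy one linear relation -/
def VV (F : Type*) [Field F] : Submodule F (Jt → F) where
  carrier := {x | x (2, 0) = x (0, 0) + x (1, 0)}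
  zero_mem' := by simp
  add_mem' := by
    intro a b ha hb
    simp only [Set.mem_ofPred_eq, Pi.add_apply] at *
    rw [ha, hb]; ring
  smul_mem' := by
    intro c a ha
    simp only [Set.mem_ofPred_eq, Pi.smul_apply, smul_eq_mul] at *
    rw [ha]; ring

/-- admissible vectors: in every group at most one pinned coordinate is nonzero -/
def Kn (n : Jt → F) : Prop :=
  n (2, 0) = n (0, 0) + n (1, 0) ∧ ∀ r i j, i ≠ j → n (r, i) * n (r, j) = 0

/-- the three vectors `F_r` -/
def Fv (F : Type*) [Field F] (r : Fin 3) : Jt → F := fun j =>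
  if j.1 = r then 1 else if j.2 = 0 ∧ ((r = 0 ∧ j.1 = 2) ∨ (r = 1 ∧ j.1 = 2) ∨ (r = 2 ∧ j.1 = 0))
    then 1 else 0

lemma Fv_self (r : Fin 3) (i : Fin 4) : Fv F r (r, i) = 1 := by simp [Fv]

lemma Fv_off (r r' : Fin 3) (h : r' ≠ r) (i j : Fin 4) (hij : i ≠ j) :
    Fv F r' (r, i) * Fv F r' (r, j) = 0 := by
  have h' : r ≠ r' := fun e => h e.symm
  by_cases hi : i = 0
  · have hj : j ≠ 0 := fun e => hij (by rw [hi, e])
    simp [Fv, h', hj]
  · simp [Fv, h', hi]

lemma Fv_mem (r : Fin 3) : Fv F r ∈ VV F := by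
  change Fv F r (2, 0) = Fv F r (0, 0) + Fv F r (1, 0)
  fin_cases r <;> simp [Fv]

/-- the tensor of the gadget before adjoining slices -/
def T0 (t : Fin 3 → F) (i j k : Jt) : F := ∑ r, t r * (Fv F r i * Fv F r j * Fv F r k)

lemma T0_pin (t : Fin 3 → F) (r : Fin 3) (i j k : Fin 4) (hij : i ≠ j) :
    T0 t (r, i) (r, j) (r, k) = t r := by
  unfold T0
  rw [Finset.sum_eq_single r]
  · simp [Fv_self]
  · intro r' _ hr'
    rw [Fv_off r r' hr' i j hij]
    ring
  · intro h; exact absurd (Finset.mem_univ _) h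

lemma pair_false (h2 : (2 : F) ≠ 0) {p : ℕ} (n : Fin p → Jt → F) (hK : ∀ q, Kn (n q))
    (hn : ∀ ψ : Fin p → F, (∀ j k, ∑ q, ψ q * (n q j * n q k) = 0) → ψ = 0)
    (a b y z : Jt → F) (ha : ∀ r i, a (r, i) = a (r, 0)) (hb : ∀ r i, b (r, i) = b (r, 0))
    (haV : a ∈ VV F) (hbV : b ∈ VV F) (hyV : y ∈ VV F) (hzV : z ∈ VV F)
    (hne : a (0, 0) * b (1, 0) - a (1, 0) * b (0, 0) ≠ 0) (e : F) (he : e ≠ 0)
    (ψ : Fin p → F) (hψ : ψ ≠ 0)
    (hZ : ∀ j k, ∑ q, ψ q * (n q j * n q k) = e * (a j * b k) + y j * z k) : False := by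
  have ha2 : a (2, 0) = a (0, 0) + a (1, 0) := haV
  have hb2 : b (2, 0) = b (0, 0) + b (1, 0) := hbV
  have hy2 : y (2, 0) = y (0, 0) + y (1, 0) := hyV
  have hz2 : z (2, 0) = z (0, 0) + z (1, 0) := hzV
  have hsym : ∀ j k, e * (a j * b k) + y j * z k = e * (a k * b j) + y k * z j := by
    intro j k
    rw [← hZ, ← hZ]
    exact Finset.sum_congr rfl fun q _ => by ring
  have hW : y (0, 0) * z (1, 0) - y (1, 0) * z (0, 0) ≠ 0 := by
    intro h
    have h1 := hsym (0, 0) (1, 0)
    have : e * (a (0, 0) * b (1, 0) - a (1, 0) * b (0, 0)) = 0 := by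
      linear_combination h1 - h
    rcases mul_eq_zero.1 this with h' | h'
    · exact he h'
    · exact hne h'
  have hYZ : ∀ r i, y (r, i) = y (r, 0) ∧ z (r, i) = z (r, 0) := by
    intro r i
    have key : ∀ k, (y (r, i) - y (r, 0)) * z k = y k * (z (r, i) - z (r, 0)) := by
      intro k
      have h1 := hsym (r, i) k
      have h2 := hsym (r, 0) k
      rw [ha r i, hb r i] at h1
      linear_combination h1 - h2
    have k0 := key (0, 0)
    have k1 := key (1, 0)
    have hY : (y (r, i) - y (r, 0)) * (y (0, 0) * z (1, 0) - y (1, 0) * z (0, 0)) = 0 := by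
      linear_combination y (0, 0) * k1 - y (1, 0) * k0
    have hZ' : (z (r, i) - z (r, 0)) * (y (0, 0) * z (1, 0) - y (1, 0) * z (0, 0)) = 0 := by
      linear_combination z (0, 0) * k1 - z (1, 0) * k0
    constructor
    · rcases mul_eq_zero.1 hY with h' | h'
      · exact sub_eq_zero.1 h'
      · exact absurd h' hW
    · rcases mul_eq_zero.1 hZ' with h' | h'
      · exact sub_eq_zero.1 h'
      · exact absurd h' hW
  have hdiag : ∀ r, e * (a (r, 0) * b (r, 0)) + y (r, 0) * z (r, 0) = 0 := by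
    intro r
    have h1 := hZ (r, 0) (r, 1)
    rw [hb r 1, (hYZ r 1).2] at h1
    rw [← h1]
    apply Finset.sum_eq_zero
    intro q _
    rw [(hK q).2 r 0 1 (by decide), mul_zero]
  have d0 := hdiag 0
  have d1 := hdiag 1
  have d2 := hdiag 2
  rw [ha2, hb2, hy2, hz2] at d2
  have s01 := hsym (0, 0) (1, 0)
  have e01 : e * (a (0, 0) * b (1, 0)) + y (0, 0) * z (1, 0) = 0 := by
    apply mul_left_cancel₀ h2
    linear_combination d2 - d0 - d1 + s01
  have e10 : e * (a (1, 0) * b (0, 0)) + y (1, 0) * z (0, 0) = 0 := by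
    rw [← s01]; exact e01
  apply hψ
  apply hn
  rintro ⟨r, i⟩ ⟨r', i'⟩
  rw [hZ, ha r i, hb r' i', (hYZ r i).1, (hYZ r' i').2]
  fin_cases r <;> fin_cases r' <;>
    simp only [Fin.zero_eta, Fin.mk_one, Fin.reduceFinMk, ha2, hb2, hy2, hz2]
  · exact d0
  · exact e01
  · linear_combination d0 + e01
  · exact e10
  · exact d1
  · linear_combination e10 + d1
  · linear_combination d0 + e10
  · linear_combination e01 + d1
  · exact d2

theorem no_core (h2 : (2 : F) ≠ 0) {p : ℕ} (n : Fin p → Jt → F) (hK : ∀ q, Kn (n q))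
    (hn : ∀ ψ : Fin p → F, (∀ j k, ∑ q, ψ q * (n q j * n q k) = 0) → ψ = 0)
    (t : Fin 3 → F) (ht : ∀ r, t r ≠ 0)
    (hpar : ∀ y : F, ¬ (y ^ 3 * t 0 = t 1 ∧ (1 + y) ^ 3 * t 0 = t 2))
    (c0 : F) (a b c : Jt → F) (u v w : Fin p → Jt → F)
    (haV : a ∈ VV F) (hbV : b ∈ VV F) (hcV : c ∈ VV F)
    (hT : ∀ i j k, T0 t i j k = c0 * (a i * b j * c k) +
        ∑ q, (u q i * (n q j * n q k) + n q i * v q j * n q k + n q i * n q j * w q k))
    (hab : a = b ∨ ∃ (ψ : Fin p → F) (d : F) (y z : Jt → F), ψ ≠ 0 ∧ d ≠ 0 ∧ y ∈ VV F ∧ z ∈ VV F ∧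
        ∀ j k, ∑ q, ψ q * (n q j * n q k) = c0 * d * (a j * b k) + y j * z k)
    (hac : a = c ∨ ∃ (ψ : Fin p → F) (d : F) (y z : Jt → F), ψ ≠ 0 ∧ d ≠ 0 ∧ y ∈ VV F ∧ z ∈ VV F ∧
        ∀ j k, ∑ q, ψ q * (n q j * n q k) = c0 * d * (a j * c k) + y j * z k) : False := by
  have pin : ∀ r i j k, i ≠ j → i ≠ k → j ≠ k → c0 * (a (r, i) * b (r, j) * c (r, k)) = t r := by
    intro r i j k hij hik hjk
    have h1 := hT (r, i) (r, j) (r, k)
    rw [T0_pin t r i j k hij] at h1
    rw [h1, Finset.sum_eq_zero, add_zero]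
    intro q _
    have e1 := (hK q).2 r j k hjk
    have e2 := (hK q).2 r i k hik
    have e3 := (hK q).2 r i j hij
    linear_combination u q (r, i) * e1 + v q (r, j) * e2 + w q (r, k) * e3
  have hex : ∀ i i' : Fin 4, i ≠ i' → ∃ j k, j ≠ k ∧ i ≠ j ∧ i ≠ k ∧ i' ≠ j ∧ i' ≠ k := by decide
  have ha : ∀ r i, a (r, i) = a (r, 0) := by
    intro r i
    by_cases hi : i = 0
    · rw [hi]
    · obtain ⟨j, k, hjk, h1, h2, h3, h4⟩ := hex i 0 hi
      have p1 := pin r i j k h1 h2 hjk
      have p2 := pin r 0 j k h3 h4 hjk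
      have hne : c0 * (b (r, j) * c (r, k)) ≠ 0 := by
        intro h0
        apply ht r
        rw [← p1]
        linear_combination a (r, i) * h0
      apply mul_left_cancel₀ hne
      linear_combination p1 - p2
  have hb : ∀ r i, b (r, i) = b (r, 0) := by
    intro r i
    by_cases hi : i = 0
    · rw [hi]
    · obtain ⟨j, k, hjk, h1, h2, h3, h4⟩ := hex i 0 hi
      have p1 := pin r j i k h1.symm hjk h2
      have p2 := pin r j 0 k h3.symm hjk h4
      have hne : c0 * (a (r, j) * c (r, k)) ≠ 0 := by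
        intro h0
        apply ht r
        rw [← p1]
        linear_combination b (r, i) * h0
      apply mul_left_cancel₀ hne
      linear_combination p1 - p2
  have hc : ∀ r i, c (r, i) = c (r, 0) := by
    intro r i
    by_cases hi : i = 0
    · rw [hi]
    · obtain ⟨j, k, hjk, h1, h2, h3, h4⟩ := hex i 0 hi
      have p1 := pin r j k i hjk h1.symm h2.symm
      have p2 := pin r j k 0 hjk h3.symm h4.symm
      have hne : c0 * (a (r, j) * b (r, k)) ≠ 0 := by
        intro h0
        apply ht r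
        rw [← p1]
        linear_combination c (r, i) * h0
      apply mul_left_cancel₀ hne
      linear_combination p1 - p2
  have P : ∀ r, c0 * (a (r, 0) * b (r, 0) * c (r, 0)) = t r := by
    intro r
    have := pin r 0 1 2 (by decide) (by decide) (by decide)
    rwa [hb r 1, hc r 2] at this
  have ha2 : a (2, 0) = a (0, 0) + a (1, 0) := haV
  have hb2 : b (2, 0) = b (0, 0) + b (1, 0) := hbV
  have hc2 : c (2, 0) = c (0, 0) + c (1, 0) := hcV
  have hc0 : c0 ≠ 0 := by
    intro h0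
    apply ht 0
    rw [← P 0, h0, zero_mul]
  by_cases hD1 : a (0, 0) * b (1, 0) - a (1, 0) * b (0, 0) = 0
  · by_cases hD2 : a (0, 0) * c (1, 0) - a (1, 0) * c (0, 0) = 0
    · have ha0 : a (0, 0) ≠ 0 := by
        intro h0
        apply ht 0
        rw [← P 0, h0]
        ring
      have hy : a (1, 0) = (a (1, 0) / a (0, 0)) * a (0, 0) := by field_simp
      obtain ⟨y, hyd⟩ : ∃ y, y = a (1, 0) / a (0, 0) := ⟨_, rfl⟩
      rw [← hyd] at hy
      have hbb : b (1, 0) = y * b (0, 0) := by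
        apply mul_left_cancel₀ ha0
        linear_combination hD1 + b (0, 0) * hy
      have hcc : c (1, 0) = y * c (0, 0) := by
        apply mul_left_cancel₀ ha0
        linear_combination hD2 + c (0, 0) * hy
      apply hpar y
      constructor
      · rw [← P 0, ← P 1, hy, hbb, hcc]; ring
      · rw [← P 0, ← P 2, ha2, hb2, hc2, hy, hbb, hcc]; ring
    · rcases hac with h | ⟨ψ, d, y, z, hψ, hd, hyV, hzV, hZ⟩
      · apply hD2
        rw [← h]; ring
      · exact pair_false h2 n hK hn a c y z ha hc haV hcV hyV hzV hD2 (c0 * d)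
          (mul_ne_zero hc0 hd) ψ hψ hZ
  · rcases hab with h | ⟨ψ, d, y, z, hψ, hd, hyV, hzV, hZ⟩
    · apply hD1
      rw [← h]; ring
    · exact pair_false h2 n hK hn a b y z ha hb haV hbV hyV hzV hD1 (c0 * d)
        (mul_ne_zero hc0 hd) ψ hψ hZ

end Pool.Agent.K1H2.CM
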