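import Pool.Agent.K1H2.CM.Low
import Pool.Agent.K1H2.CM.Ids

/-!
The gadget with three groups of four pinned functionals: the upper bound.
-/

namespace Pool.Agent.K1H2.CM

open Finset

variable {F : Type*} [Field F]

section generic

variable {X : Type*} [AddCommGroup X] [Module F X] {t : X → X → X → F}

omit [AddCommGroup X] [Module F X] in
lemma PP_symm {u v : X} (h : PP t u v) : PP t v u := by
  intro x
  obtain ⟨h1, h2, h3⟩ := h x
  exact ⟨by linear_combination h1, by linear_combination h2, by linear_combination h3⟩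

lemma PP_add_left (ht : Tri t) {u u' v : X} (h : PP t u v) (h' : PP t u' v) :
    PP t (u + u') v := by
  intro x
  obtain ⟨h1, h2, h3⟩ := h x
  obtain ⟨h1', h2', h3'⟩ := h' x
  simp only [ht.add1, ht.add2, ht.add3]
  exact ⟨by linear_combination h1 + h1', by linear_combination h2 + h2',
    by linear_combination h3 + h3'⟩

lemma PP_of_SS (ht : Tri t) {u v : X} (hu : SS t u) (hv : SS t v) (huv : SS t (u + v)) :
    PP t u v := by
  intro x
  obtain ⟨h1, h2, h3⟩ := hu x
  obtain ⟨h1', h2', h3'⟩ := hv x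
  have h := huv x
  simp only [ht.add1, ht.add2, ht.add3] at h
  obtain ⟨k1, k2, k3⟩ := h
  exact ⟨by linear_combination k1 - h1 - h1', by linear_combination k2 - h2 - h2',
    by linear_combination k3 - h3 - h3'⟩

end generic

/-- basis vectors of the groups -/
def ee (F : Type*) [Field F] (r : Fin 3) (i : Fin 3) : Jt → F := fun j =>
  if j = (r, i.succ) then 1 else 0

/-- the vector `x` with two free coordinates -/
def gg (F : Type*) [Field F] (a b : F) : Jt → F := fun j =>
  if j = (0, 0) then a else if j = (1, 0) then b else if j = (2, 0) then a + b else 0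

/-- the sum of the basis vectors of a group -/
def EE (F : Type*) [Field F] (r : Fin 3) : Jt → F := ee F r 0 + ee F r 1 + ee F r 2

lemma Kn_of_supp {n : Jt → F} (f : Fin 3 → Fin 4) (h : ∀ r i, i ≠ f r → n (r, i) = 0)
    (hV : n (2, 0) = n (0, 0) + n (1, 0)) : Kn n := by
  refine ⟨hV, fun r i j hij => ?_⟩
  by_cases hi : i = f r
  · have hj : j ≠ f r := fun e => hij (by rw [hi, e])
    rw [h r j hj, mul_zero]
  · rw [h r i hi, zero_mul]

lemma Kn_gg (a b : F) : Kn (gg F a b) := by
  apply Kn_of_supp (fun _ => 0)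
  · intro r i hi
    simp [gg, hi]
  · simp [gg]

lemma Kn_ee (r i : Fin 3) : Kn (ee F r i) := by
  apply Kn_of_supp (fun _ => i.succ)
  · intro r' i' hi
    simp [ee, hi]
  · simp [ee, (Fin.succ_ne_zero _).symm]

lemma Kn_ee_ee (r s i j : Fin 3) (hrs : r ≠ s) : Kn (ee F r i + ee F s j) := by
  apply Kn_of_supp (fun r' => if r' = r then i.succ else j.succ)
  · intro r' i' hi
    by_cases hr : r' = r
    · subst hr
      have hi' : i' ≠ i.succ := by simpa using hi
      simp [ee, hi', hrs]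
    · have hi' : i' ≠ j.succ := by simpa [hr] using hi
      simp [ee, hi', hr]
  · simp [ee, (Fin.succ_ne_zero _).symm]

/-- `gg` vanishing on group `r` plus a basis vector of group `r` -/
lemma Kn_gg_ee (a b : F) (r i : Fin 3) (h : gg F a b (r, 0) = 0) :
    Kn (gg F a b + ee F r i) := by
  apply Kn_of_supp (fun r' => if r' = r then i.succ else 0)
  · intro r' i' hi
    by_cases hr : r' = r
    · subst hr
      have hi' : i' ≠ i.succ := by simpa using hi
      by_cases h0 : i' = 0
      · subst h0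
        simp [ee, h, (Fin.succ_ne_zero _).symm]
      · simp [ee, gg, hi', h0]
    · have hi' : i' ≠ 0 := by simpa [hr] using hi
      simp [ee, gg, hi', hr]
  · simp [ee, gg, (Fin.succ_ne_zero _).symm]

section rel

variable {t : (Jt → F) → (Jt → F) → (Jt → F) → F}

lemma PP_EE_EE (ht : Tri t) (hS : ∀ n, Kn n → SS t n) (r s : Fin 3) (hrs : r ≠ s) :
    PP t (EE F r) (EE F s) := by
  have h0 : ∀ i j, PP t (ee F r i) (ee F s j) := fun i j =>
    PP_of_SS ht (hS _ (Kn_ee r i)) (hS _ (Kn_ee s j)) (hS _ (Kn_ee_ee r s i j hrs))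
  have h1 : ∀ i, PP t (ee F r i) (EE F s) := fun i => PP_symm
    (PP_add_left ht (PP_add_left ht (PP_symm (h0 i 0)) (PP_symm (h0 i 1))) (PP_symm (h0 i 2)))
  exact PP_add_left ht (PP_add_left ht (h1 0) (h1 1)) (h1 2)

lemma PP_gg_EE (ht : Tri t) (hS : ∀ n, Kn n → SS t n) (a b : F) (r : Fin 3)
    (h : gg F a b (r, 0) = 0) : PP t (gg F a b) (EE F r) := by
  have h0 : ∀ i, PP t (gg F a b) (ee F r i) := fun i =>
    PP_of_SS ht (hS _ (Kn_gg a b)) (hS _ (Kn_ee r i)) (hS _ (Kn_gg_ee a b r i h))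
  exact PP_symm
    (PP_add_left ht (PP_add_left ht (PP_symm (h0 0)) (PP_symm (h0 1))) (PP_symm (h0 2)))

lemma rel_of (ht : Tri t) (hS : ∀ n, Kn n → SS t n) :
    Rel t (gg F 1 0) (gg F 0 1) (EE F 0) (EE F 1) (EE F 2) where
  ht := ht
  s1 := hS _ (Kn_gg 1 0)
  s2 := hS _ (Kn_gg 0 1)
  p12 := PP_of_SS ht (hS _ (Kn_gg 1 0)) (hS _ (Kn_gg 0 1)) (by
    have : gg F 1 0 + gg F 0 1 = gg F 1 1 := by
      funext j
      simp only [gg, Pi.add_apply]
      split_ifs <;> ring
    rw [this]
    exact hS _ (Kn_gg 1 1))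
  q1 := PP_gg_EE ht hS 0 1 0 (by simp [gg])
  q2 := PP_gg_EE ht hS 1 0 1 (by simp [gg])
  q3 := by
    have h := PP_gg_EE ht hS 1 (-1) 2 (by simp [gg])
    have e : gg F 1 (-1) = gg F 1 0 + (-1 : F) • gg F 0 1 := by
      funext j
      simp only [gg, Pi.add_apply, Pi.smul_apply, smul_eq_mul]
      split_ifs <;> ring
    rw [e] at h
    intro x
    obtain ⟨h1, h2, h3⟩ := h x
    simp only [ht.add1, ht.add2, ht.add3, ht.smul1, ht.smul2, ht.smul3] at h1 h2 h3
    exact ⟨by linear_combination h1, by linear_combination h2, by linear_combination h3⟩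
  r12 := PP_EE_EE ht hS 0 1 (by decide)
  r13 := PP_EE_EE ht hS 0 2 (by decide)
  r23 := PP_EE_EE ht hS 1 2 (by decide)

end rel

lemma Fv0 : Fv F 0 = gg F 1 0 + EE F 0 := by
  funext ⟨r, i⟩
  fin_cases r <;> fin_cases i <;> simp [Fv, gg, EE, ee]

lemma Fv1 : Fv F 1 = gg F 0 1 + EE F 1 := by
  funext ⟨r, i⟩
  fin_cases r <;> fin_cases i <;> simp [Fv, gg, EE, ee]

lemma Fv2 : Fv F 2 = gg F 1 0 + EE F 2 := by
  funext ⟨r, i⟩
  fin_cases r <;> fin_cases i <;> simp [Fv, gg, EE, ee]

/-- the submodule of all tensors `∑ (u n n + n v n + n n w)` -/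
def MM (F : Type*) [Field F] {p : ℕ} (n : Fin p → Jt → F) : Submodule F (Jt → Jt → Jt → F) where
  carrier := {T | ∃ u v w : Fin p → Jt → F, ∀ i j k, T i j k =
    ∑ q, (u q i * (n q j * n q k) + n q i * v q j * n q k + n q i * n q j * w q k)}
  zero_mem' := ⟨0, 0, 0, by simp⟩
  add_mem' := by
    rintro a b ⟨u, v, w, h⟩ ⟨u', v', w', h'⟩
    refine ⟨u + u', v + v', w + w', fun i j k => ?_⟩
    simp only [Pi.add_apply]
    rw [h, h', ← Finset.sum_add_distrib]
    exact Finset.sum_congr rfl fun q _ => by ring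
  smul_mem' := by
    rintro c a ⟨u, v, w, h⟩
    refine ⟨c • u, c • v, c • w, fun i j k => ?_⟩
    simp only [Pi.smul_apply, smul_eq_mul]
    rw [h, Finset.mul_sum]
    exact Finset.sum_congr rfl fun q _ => by ring

/-- rank one tensors -/
def tens (x y z : Jt → F) : Jt → Jt → Jt → F := fun i j k => x i * y j * z k

lemma tens_mem {p : ℕ} (n : Fin p → Jt → F) {m : Jt → F}
    (hm : ∃ c : Fin p → F, ∀ j k, m j * m k = ∑ q, c q * (n q j * n q k)) (x : Jt → F) :
    tens x m m ∈ MM F n ∧ tens m x m ∈ MM F n ∧ tens m m x ∈ MM F n := by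
  obtain ⟨c, hc⟩ := hm
  refine ⟨⟨fun q => c q • x, 0, 0, fun i j k => ?_⟩, ⟨0, fun q => c q • x, 0, fun i j k => ?_⟩,
    ⟨0, 0, fun q => c q • x, fun i j k => ?_⟩⟩
  · have : tens x m m i j k = x i * (m j * m k) := by simp only [tens]; ring
    rw [this, hc, Finset.mul_sum]
    refine Finset.sum_congr rfl fun q _ => ?_
    simp only [Pi.smul_apply, smul_eq_mul, Pi.zero_apply]
    ring
  · have : tens m x m i j k = x j * (m i * m k) := by simp only [tens]; ring
    rw [this, hc, Finset.mul_sum]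
    refine Finset.sum_congr rfl fun q _ => ?_
    simp only [Pi.smul_apply, smul_eq_mul, Pi.zero_apply]
    ring
  · have : tens m m x i j k = x k * (m i * m j) := by simp only [tens]; ring
    rw [this, hc, Finset.mul_sum]
    refine Finset.sum_congr rfl fun q _ => ?_
    simp only [Pi.smul_apply, smul_eq_mul, Pi.zero_apply]
    ring

lemma tri_of (φ : Module.Dual F (Jt → Jt → Jt → F)) : Tri (fun x y z => φ (tens x y z)) where
  add1 x x' y z := by
    rw [← map_add]; congr 1; funext i j k; simp only [tens, Pi.add_apply]; ring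
  add2 x x' y z := by
    rw [← map_add]; congr 1; funext i j k; simp only [tens, Pi.add_apply]; ring
  add3 x x' y z := by
    rw [← map_add]; congr 1; funext i j k; simp only [tens, Pi.add_apply]; ring
  smul1 c x y z := by
    rw [← smul_eq_mul, ← map_smul]; congr 1; funext i j k
    simp only [tens, Pi.smul_apply, smul_eq_mul]; ring
  smul2 c x y z := by
    rw [← smul_eq_mul, ← map_smul]; congr 1; funext i j k
    simp only [tens, Pi.smul_apply, smul_eq_mul]; ring
  smul3 c x y z := by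
    rw [← smul_eq_mul, ← map_smul]; congr 1; funext i j k
    simp only [tens, Pi.smul_apply, smul_eq_mul]; ring

/-- the vectors of the pinned plane -/
def plane (F : Type*) [Field F] (a b : F) : Jt → F :=
  a • (gg F 1 0 + EE F 0 + EE F 2) + b • (gg F 0 1 + EE F 1 + EE F 2)

theorem upper (h2 : (2 : F) ≠ 0) {p : ℕ} (n : Fin p → Jt → F)
    (hsp : ∀ m, Kn m → ∃ c : Fin p → F, ∀ j k, m j * m k = ∑ q, c q * (n q j * n q k))
    (α1 α2 β1 β2 γ1 γ2 : F) :
    ∃ u v w : Fin p → Jt → F, ∀ i j k,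
      T0 ![α1 * β1 * γ1, α2 * β2 * γ2, (α1 + α2) * (β1 + β2) * (γ1 + γ2)] i j k =
      plane F α1 α2 i * plane F β1 β2 j * plane F γ1 γ2 k +
        ∑ q, (u q i * (n q j * n q k) + n q i * v q j * n q k + n q i * n q j * w q k) := by
  have hmem : (T0 ![α1 * β1 * γ1, α2 * β2 * γ2, (α1 + α2) * (β1 + β2) * (γ1 + γ2)] -
      tens (plane F α1 α2) (plane F β1 β2) (plane F γ1 γ2) : Jt → Jt → Jt → F) ∈ MM F n := by
    rw [← Subspace.forall_mem_dualAnnihilator_apply_eq_zero_iff]
    intro φ hφ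
    have hz : ∀ T ∈ MM F n, φ T = 0 := (Submodule.mem_dualAnnihilator φ).1 hφ
    have hR := rel_of (tri_of φ) (fun m hm x => by
      obtain ⟨a1, a2, a3⟩ := tens_mem n (hsp m hm) x
      exact ⟨hz _ a1, hz _ a2, hz _ a3⟩)
    have hmain := hR.main h2 α1 α2 β1 β2 γ1 γ2
    rw [map_sub, sub_eq_zero]
    have hT : (T0 ![α1 * β1 * γ1, α2 * β2 * γ2, (α1 + α2) * (β1 + β2) * (γ1 + γ2)] :
        Jt → Jt → Jt → F) = (α1 * β1 * γ1) • tens (Fv F 0) (Fv F 0) (Fv F 0) +
          (α2 * β2 * γ2) • tens (Fv F 1) (Fv F 1) (Fv F 1) +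
          ((α1 + α2) * (β1 + β2) * (γ1 + γ2)) • tens (Fv F 2) (Fv F 2) (Fv F 2) := by
      funext i j k
      simp only [T0, Fin.sum_univ_three, tens, Pi.add_apply, Pi.smul_apply, smul_eq_mul]
      simp
    rw [hT, map_add, map_add, map_smul, map_smul, map_smul]
    simp only [smul_eq_mul]
    rw [Fv0, Fv1, Fv2]
    exact hmain.symm
  obtain ⟨u, v, w, h⟩ := hmem
  refine ⟨u, v, w, fun i j k => ?_⟩
  rw [← h i j k]
  simp only [Pi.sub_apply, tens]
  ring

/-- a linearly independent family of squares of admissible vectors spanning all of them -/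
theorem exists_family (F : Type*) [Field F] : ∃ (p : ℕ) (n : Fin p → Jt → F), (∀ q, Kn (n q)) ∧
    (∀ ψ : Fin p → F, (∀ j k, ∑ q, ψ q * (n q j * n q k) = 0) → ψ = 0) ∧
    (∀ m, Kn m → ∃ c : Fin p → F, ∀ j k, m j * m k = ∑ q, c q * (n q j * n q k)) := by
  let S : Set (Jt → Jt → F) := {w | ∃ m, Kn m ∧ w = fun j k => m j * m k}
  obtain ⟨f, hf1, hf2, hf3⟩ := Submodule.exists_fun_fin_finrank_span_eq F S
  choose n hK hn using hf1
  refine ⟨_, n, hK, ?_, ?_⟩
  · intro ψ hψ
    have := Fintype.linearIndependent_iff.1 hf3 ψ (by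
      funext j k
      have := hψ j k
      simp only [Finset.sum_apply, Pi.smul_apply, smul_eq_mul, Pi.zero_apply]
      rw [← this]
      exact Finset.sum_congr rfl fun q _ => by rw [hn q])
    funext q
    exact this q
  · intro m hm
    have h1 : (fun j k => m j * m k : Jt → Jt → F) ∈ Submodule.span F (Set.range f) := by
      rw [hf2]
      exact Submodule.subset_span ⟨m, hm, rfl⟩
    rw [Submodule.mem_span_range_iff_exists_fun] at h1
    obtain ⟨c, hc⟩ := h1
    refine ⟨c, fun j k => ?_⟩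
    have := congrFun (congrFun hc j) k
    rw [← this]
    simp only [Finset.sum_apply, Pi.smul_apply, smul_eq_mul]
    exact Finset.sum_congr rfl fun q _ => by rw [hn q]

end Pool.Agent.K1H2.CM
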